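import Pool.Agent.W59.CL.PH
set_option autoImplicit false

open Polynomial Filter Topology MeasureTheory Set

namespace W59CL

open W96CL

noncomputable def Fd (r : ℝ) : ℝ := ∫ t in (0 : ℝ)..r, Real.log (1 - t) / t

theorem int_F : IntervalIntegrable (fun t : ℝ => Real.log (1 - t) / t) volume 0 1 := by
  have hlog : IntervalIntegrable (fun t : ℝ => Real.log (1 - t)) volume 0 1 := by
    have h := (intervalIntegral.intervalIntegrable_log' (a := 1) (b := 0)).comp_sub_left 1
    simpa using h
  have hb : IntervalIntegrable (fun t : ℝ => 2 + 2 * |Real.log (1 - t)|) volume 0 1 :=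
    (intervalIntegrable_const).add (hlog.abs.const_mul 2)
  refine hb.mono_fun ?_ ?_
  · exact ((Real.measurable_log.comp (measurable_const.sub measurable_id)).div measurable_id).aestronglyMeasurable
  · rw [uIoc_of_le (zero_le_one : (0:ℝ) ≤ 1)]
    have hne : ∀ᵐ t ∂(volume.restrict (Ioc (0:ℝ) 1)), t ≠ 1 := by
      refine ae_restrict_of_ae ?_
      exact (measure_eq_zero_iff_ae_notMem.1 (measure_singleton (1:ℝ))).mono (fun t ht => by simpa using ht)
    filter_upwards [hne, ae_restrict_mem measurableSet_Ioc] with t h1 ht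
    have ht1 : t < 1 := lt_of_le_of_ne ht.2 h1
    have ht0 : 0 < t := ht.1
    have hneg : Real.log (1 - t) ≤ 0 := Real.log_nonpos (by linarith) (by linarith)
    rw [Real.norm_eq_abs, Real.norm_eq_abs, abs_div, abs_of_pos ht0,
      abs_of_nonneg (by positivity : (0:ℝ) ≤ 2 + 2 * |Real.log (1 - t)|), div_le_iff₀ ht0]
    rcases le_total t (1/2) with h | h
    · have h2 : 1 - (1 - t)⁻¹ ≤ Real.log (1 - t) := by
        have := Real.one_sub_inv_le_log_of_pos (by linarith : 0 < 1 - t)
        exact this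
      have h3 : (1 - t)⁻¹ ≤ 1 + 2 * t := by
        rw [inv_le_iff_one_le_mul₀ (by linarith)]
        nlinarith
      rw [abs_of_nonpos hneg]
      nlinarith [mul_nonneg ht0.le (neg_nonneg.2 hneg)]
    · have : |Real.log (1 - t)| ≤ 2 * |Real.log (1 - t)| * t := by
        nlinarith [abs_nonneg (Real.log (1 - t))]
      nlinarith

theorem Fd_one : Fd 1 = -(Real.pi ^ 2 / 6) := by
  unfold Fd
  rw [intervalIntegral.integral_of_le zero_le_one]
  set F : ℕ → ℝ → ℝ := fun n t => -(t ^ n / (n + 1)) with hF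
  have hval : ∀ n : ℕ, ∫ t in Ioc (0:ℝ) 1, F n t = -(1 / ((n:ℝ) + 1) ^ 2) := by
    intro n
    rw [← intervalIntegral.integral_of_le zero_le_one]
    simp only [hF]
    rw [intervalIntegral.integral_neg, intervalIntegral.integral_div, integral_pow]
    have : ((n:ℝ) + 1) ≠ 0 := by positivity
    field_simp
    simp
  have hnorm : ∀ n : ℕ, ∫ t in Ioc (0:ℝ) 1, ‖F n t‖ = 1 / ((n:ℝ) + 1) ^ 2 := by
    intro n
    have h1 : ∫ t in Ioc (0:ℝ) 1, ‖F n t‖ = ∫ t in Ioc (0:ℝ) 1, -(F n t) := by
      refine setIntegral_congr_fun measurableSet_Ioc fun t ht => ?_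
      simp only [hF]
      rw [Real.norm_eq_abs, abs_neg, neg_neg, abs_of_nonneg]
      have := ht.1.le
      positivity
    rw [h1, integral_neg, hval, neg_neg]
  have hsum0 : Summable (fun n : ℕ => 1 / ((n:ℝ) + 1) ^ 2) := by
    have := (summable_nat_add_iff 1).2 (hasSum_zeta_two.summable)
    refine this.congr fun n => ?_
    push_cast
    rfl
  have hint : ∀ n : ℕ, Integrable (F n) (volume.restrict (Ioc (0:ℝ) 1)) := by
    intro n
    have hc : Continuous (F n) := by simp only [hF]; fun_prop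
    exact (hc.integrableOn_Icc (a := 0) (b := 1)).mono_set Ioc_subset_Icc_self
  have hs := hasSum_integral_of_summable_integral_norm hint (by simpa only [hnorm] using hsum0)
  have hae : ∫ t in Ioc (0:ℝ) 1, (∑' n, F n t) = ∫ t in Ioc (0:ℝ) 1, Real.log (1 - t) / t := by
    rw [integral_Ioc_eq_integral_Ioo, integral_Ioc_eq_integral_Ioo]
    refine setIntegral_congr_fun measurableSet_Ioo fun t ht => ?_
    have h1 := Real.hasSum_pow_div_log_of_abs_lt_one (x := t) (by rw [abs_of_pos ht.1]; exact ht.2)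
    have h2 : HasSum (fun n : ℕ => F n t) (Real.log (1 - t) / t) := by
      have h3 := (h1.div_const t).neg
      have h4 : -(-Real.log (1 - t) / t) = Real.log (1 - t) / t := by ring
      rw [h4] at h3
      have h5 : (fun n : ℕ => F n t) = fun n : ℕ => -(t ^ (n + 1) / ((n:ℝ) + 1) / t) := by
        funext n
        have h6 : ((n:ℝ) + 1) ≠ 0 := by positivity
        have h7 : t ≠ 0 := ht.1.ne'
        simp only [hF]
        field_simp
        ring
      rw [h5]
      exact h3
    exact h2.tsum_eq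
  rw [← hae]
  simp only [hval] at hs
  refine hs.unique ?_
  have h5 : HasSum (fun n : ℕ => 1 / ((n:ℝ) + 1) ^ 2) (Real.pi ^ 2 / 6) := by
    have := (hasSum_nat_add_iff' 1).2 hasSum_zeta_two
    simpa using this
  exact h5.neg

theorem Fd_cont : ContinuousOn Fd (Set.Icc 0 1) := by
  have h := intervalIntegral.continuousOn_primitive_interval' int_F
    (left_mem_uIcc (a := (0:ℝ)) (b := 1))
  rw [uIcc_of_le zero_le_one] at h
  exact h

theorem Ph_neg (s : ℝ) : Ph (-s) = Fd s := by
  unfold Ph Fd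
  have h := intervalIntegral.integral_comp_neg (a := 0) (b := s)
    (fun t : ℝ => Real.log (1 + t) / t)
  rw [neg_zero] at h
  rw [intervalIntegral.integral_symm, ← h, ← intervalIntegral.integral_neg]
  refine intervalIntegral.integral_congr fun t _ => ?_
  show -(Real.log (1 + -t) / -t) = Real.log (1 - t) / t
  rw [← sub_eq_add_neg, div_neg, neg_neg]

theorem lim_neg : Tendsto (fun s : ℝ => Ph (-s)) (𝓝[<] 1) (𝓝 (-(Real.pi ^ 2 / 6))) := by
  have h1 : ContinuousWithinAt Fd (Icc 0 1) 1 := Fd_cont 1 (right_mem_Icc.2 zero_le_one)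
  have h2 : Tendsto Fd (𝓝[<] 1) (𝓝 (Fd 1)) := by
    refine h1.tendsto.mono_left ?_
    refine (nhdsWithin_le_iff).2 ?_
    exact mem_of_superset (Ioo_mem_nhdsLT (zero_lt_one : (0:ℝ) < 1)) (fun x hx => ⟨hx.1.le, hx.2.le⟩)
  rw [Fd_one] at h2
  exact h2.congr fun s => (Ph_neg s).symm

theorem gg_mul (x : ℝ) : gg x * x = Real.log (1 + x) := by
  rcases eq_or_ne x 0 with rfl | h
  · simp
  · rw [gg_ne h]; field_simp

/-- the duplication formula -/
theorem dup (x : ℝ) (hx : x ∈ Icc (0 : ℝ) 1) (hx1 : x < 1) :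
    Ph x + Ph (-x) - Ph (-x ^ 2) / 2 = 0 := by
  have key : ∀ y ∈ Icc (0 : ℝ) x, (fun x => Ph x + Ph (-x) - Ph (-x ^ 2) / 2) y =
      (fun x => Ph x + Ph (-x) - Ph (-x ^ 2) / 2) 0 := by
    have hder : ∀ y ∈ Icc (0 : ℝ) x, HasDerivAt (fun x => Ph x + Ph (-x) - Ph (-x ^ 2) / 2)
        (gg y - gg (-y) + y * gg (-y ^ 2)) y := by
      intro y hy
      have hy1 : y < 1 := lt_of_le_of_lt hy.2 hx1
      have h1 := Ph_deriv y (by linarith [hy.1])
      have h2 : HasDerivAt (fun x => Ph (-x)) (gg (-y) * (-1)) y :=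
        (Ph_deriv (-y) (by linarith)).comp y (hasDerivAt_neg y)
      have h3 : HasDerivAt (fun x : ℝ => -x ^ 2) (-(2 * y)) y := by
        have := (hasDerivAt_pow 2 y).fun_neg
        simpa using this
      have h4 : HasDerivAt (fun x => Ph (-x ^ 2)) (gg (-y ^ 2) * (-(2 * y))) y :=
        Ph_comp (w := fun x => -x ^ 2) h3 (by nlinarith [hy.1])
      refine ((h1.add h2).sub (h4.div_const 2)).congr_deriv ?_
      ring
    refine constant_of_has_deriv_right_zero
      (fun y hy => (hder y hy).continuousAt.continuousWithinAt) (fun y hy => ?_)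
    have h0 : gg y - gg (-y) + y * gg (-y ^ 2) = 0 := by
      rcases eq_or_ne y 0 with rfl | h
      · simp
      · have hy1 : y < 1 := lt_of_lt_of_le hy.2 hx1.le
        have hy0 : 0 < y := lt_of_le_of_ne hy.1 (Ne.symm h)
        rw [gg_ne h, gg_ne (neg_ne_zero.2 h), gg_ne (neg_ne_zero.2 (pow_ne_zero 2 h))]
        have e : Real.log (1 + -y ^ 2) = Real.log (1 + y) + Real.log (1 + -y) := by
          rw [← Real.log_mul (by linarith) (by linarith)]
          congr 1
          ring
        rw [e]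
        field_simp
        ring
    have := (hder y ⟨hy.1, hy.2.le⟩).hasDerivWithinAt (s := Ici y)
    rwa [h0] at this
  have := key x ⟨hx.1, le_rfl⟩
  simp only at this
  rw [this]
  simp [Ph_zero]

theorem Ph_one : Ph 1 = Real.pi ^ 2 / 12 := by
  have h1 : Tendsto (fun x => Ph x + Ph (-x) - Ph (-x ^ 2) / 2) (𝓝[<] 1)
      (𝓝 (Ph 1 + -(Real.pi ^ 2 / 6) - -(Real.pi ^ 2 / 6) / 2)) := by
    refine (Tendsto.add ?_ lim_neg).sub (Tendsto.div_const ?_ 2)
    · exact (Ph_cont 1 (by norm_num)).tendsto.mono_left nhdsWithin_le_nhds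
    · refine lim_neg.comp (tendsto_nhdsWithin_iff.2 ⟨?_, ?_⟩)
      · have : Tendsto (fun x : ℝ => x ^ 2) (𝓝 1) (𝓝 (1 ^ 2)) := (continuous_pow 2).tendsto 1
        rw [one_pow] at this
        exact this.mono_left nhdsWithin_le_nhds
      · filter_upwards [Ioo_mem_nhdsLT (zero_lt_one : (0:ℝ) < 1)] with x hx
        have h1 := hx.1
        have h2 := hx.2
        simp only [mem_Iio]
        nlinarith
  have h2 : Tendsto (fun x => Ph x + Ph (-x) - Ph (-x ^ 2) / 2) (𝓝[<] 1) (𝓝 0) := by
    refine tendsto_const_nhds.congr' ?_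
    filter_upwards [Ioo_mem_nhdsLT (zero_lt_one : (0:ℝ) < 1)] with x hx
    exact (dup x ⟨hx.1.le, hx.2.le⟩ hx.2).symm
  have := tendsto_nhds_unique h1 h2
  linarith

theorem five : Ph 3 / 2 + Ph 2 = Real.log 2 * Real.log 3 + 2 * Ph 1 := by
  have key : ∀ y ∈ Icc (1 : ℝ) 2,
      (fun x => Ph (x ^ 2 - 1) / 2 + Ph x - Real.log x * Real.log (1 + x) - Ph (x - 1)) y =
      (fun x => Ph (x ^ 2 - 1) / 2 + Ph x - Real.log x * Real.log (1 + x) - Ph (x - 1)) 1 := by
    have hder : ∀ y ∈ Icc (1 : ℝ) 2, HasDerivAt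
        (fun x => Ph (x ^ 2 - 1) / 2 + Ph x - Real.log x * Real.log (1 + x) - Ph (x - 1))
        (y * gg (y ^ 2 - 1) + gg y - (Real.log (1 + y) / y + Real.log y / (1 + y)) - gg (y - 1))
        y := by
      intro y hy
      have hy0 : 0 < y := by linarith [hy.1]
      have h1 := Ph_deriv y (by linarith)
      have h2 : HasDerivAt (fun x => Ph (x - 1)) (gg (y - 1) * 1) y :=
        Ph_comp (w := fun x => x - 1) ((hasDerivAt_id' y).sub_const 1) (by linarith)
      have h3 : HasDerivAt (fun x : ℝ => x ^ 2 - 1) (2 * y) y := by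
        have := (hasDerivAt_pow 2 y).sub_const 1
        simpa using this
      have h4 : HasDerivAt (fun x => Ph (x ^ 2 - 1)) (gg (y ^ 2 - 1) * (2 * y)) y :=
        Ph_comp (w := fun x => x ^ 2 - 1) h3 (by nlinarith)
      have h5 : HasDerivAt (fun x => Real.log (1 + x)) (1 / (1 + y)) y :=
        ((hasDerivAt_id' y).const_add 1).log (by linarith)
      have h6 : HasDerivAt (fun x => Real.log x * Real.log (1 + x))
          (y⁻¹ * Real.log (1 + y) + Real.log y * (1 / (1 + y))) y :=
        (Real.hasDerivAt_log hy0.ne').mul h5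
      refine ((((h4.div_const 2).add h1).sub h6).sub h2).congr_deriv ?_
      field_simp
    refine constant_of_has_deriv_right_zero
      (fun y hy => (hder y hy).continuousAt.continuousWithinAt) (fun y hy => ?_)
    have h0 : y * gg (y ^ 2 - 1) + gg y - (Real.log (1 + y) / y + Real.log y / (1 + y)) -
        gg (y - 1) = 0 := by
      rcases eq_or_ne y 1 with rfl | h
      · rw [gg_ne (one_ne_zero)]
        simp [gg_zero]
      · have hy1 : 1 < y := lt_of_le_of_ne hy.1 (Ne.symm h)
        have hne1 : y - 1 ≠ 0 := sub_ne_zero.2 h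
        have hne2 : y ^ 2 - 1 ≠ 0 := by nlinarith
        have hne3 : y + 1 ≠ 0 := by linarith
        have hne4 : 1 + y ≠ 0 := by linarith
        rw [gg_ne hne2, gg_ne (by linarith : y ≠ 0), gg_ne hne1]
        have e1 : 1 + (y ^ 2 - 1) = y ^ 2 := by ring
        have e2 : 1 + (y - 1) = y := by ring
        have e3 : y ^ 2 - 1 = (y - 1) * (y + 1) := by ring
        rw [e1, e2, Real.log_pow, e3]
        have hyne : y ≠ 0 := by linarith
        push_cast
        field_simp
        ring
    have := (hder y ⟨hy.1, hy.2.le⟩).hasDerivWithinAt (s := Ici y)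
    rwa [h0] at this
  have h := key 2 ⟨by norm_num, le_rfl⟩
  simp only at h
  norm_num [Ph_zero] at h
  linarith

end W59CL

namespace W96CL

open W59CL

theorem cl_dilog : S_dilog := by
  refine ⟨?_, lim_neg⟩
  rw [five, Ph_one]
  ring

end W96CL
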