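import Pool.Agent.W96.CL.Stm
set_option autoImplicit false

open Polynomial Filter Topology MeasureTheory

namespace W59CL

open W96CL

theorem abs_log_sub_log_le {a b c : ℝ} (hc : 0 < c) (ha : c ≤ a) (hb : c ≤ b) :
    |Real.log a - Real.log b| ≤ |a - b| / c := by
  have ha0 : 0 < a := lt_of_lt_of_le hc ha
  have hb0 : 0 < b := lt_of_lt_of_le hc hb
  have key : ∀ x y : ℝ, 0 < x → c ≤ y → Real.log x - Real.log y ≤ |x - y| / c := by
    intro x y hx hy
    have hy0 : 0 < y := lt_of_lt_of_le hc hy
    rw [← Real.log_div hx.ne' hy0.ne']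
    calc Real.log (x / y) ≤ x / y - 1 := Real.log_le_sub_one_of_pos (by positivity)
      _ = (x - y) / y := by field_simp
      _ ≤ |x - y| / y := by gcongr; exact le_abs_self _
      _ ≤ |x - y| / c := by gcongr
  rw [abs_le]
  constructor
  · have := key b a hb0 ha
    rw [abs_sub_comm] at this
    linarith
  · exact key a b ha0 hb

theorem exists_low {s : ℝ → ℝ} (hs : Continuous s) (hlt : ∀ u, s u < 1)
    (hlim : ∃ K, ∀ u, |s u + 2| ≤ K * Real.exp (-|u|) ∧ |deriv s u| ≤ K * Real.exp (-|u|)) :
    ∃ c : ℝ, 0 < c ∧ c ≤ 3 ∧ ∀ u, c ≤ 1 - s u := by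
  obtain ⟨K, hK⟩ := hlim
  have hK0 : 0 ≤ K := by
    have := (hK 0).1
    rw [abs_zero, neg_zero, Real.exp_zero, mul_one] at this
    exact (abs_nonneg _).trans this
  obtain ⟨x, -, hx⟩ := (isCompact_Icc (a := -K) (b := K)).exists_isMinOn
    (Set.nonempty_Icc.2 (by linarith)) ((continuous_const.sub hs).continuousOn (f := fun u => 1 - s u))
  refine ⟨min (1 - s x) 2, lt_min (by linarith [hlt x]) (by norm_num),
    (min_le_right _ _).trans (by norm_num), fun u => ?_⟩
  rcases le_or_gt |u| K with h | h
  · exact (min_le_left _ _).trans (hx (abs_le.1 h))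
  · refine (min_le_right _ _).trans ?_
    have h1 := (hK u).1
    have h2 : K * Real.exp (-|u|) ≤ 1 := by
      rw [Real.exp_neg, ← div_eq_mul_inv, div_le_one (Real.exp_pos _)]
      have := Real.add_one_le_exp |u|
      linarith
    have h3 := (abs_le.1 (h1.trans h2)).2
    linarith

theorem deriv_odd {r : ℝ → ℝ} (h : ∀ u, r (-u) = -r u) (u : ℝ) : deriv r (-u) = deriv r u := by
  have h1 : deriv (fun v => r (-v)) u = -deriv r (-u) := deriv_comp_neg r u
  have h2 : (fun v => r (-v)) = fun v => -r v := funext h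
  rw [h2, deriv.fun_neg] at h1
  linarith

end W59CL

namespace W96CL

open W59CL

theorem cl_ev : S_ev := by
  intro n θ z0 s r lam T
  have hr0 : r 0 = 0 := by
    have := T.r_odd 0
    rw [neg_zero] at this
    linarith
  have hs0 : 0 < s 0 := T.s_pos 0 (by rw [abs_zero]; exact T.z0pos)
  refine ⟨⟨?_, ?_, ?_⟩, ⟨?_, ?_, ?_⟩, hr0, hs0⟩
  · intro u; simp only [T.s_even]
  · exact (contDiff_const.sub T.s_diff).log fun u => by linarith [T.s_lt u]
  · obtain ⟨c, hc, hc3, hlow⟩ := exists_low T.s_diff.continuous T.s_lt T.s_lim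
    obtain ⟨K, hK⟩ := T.s_lim
    refine ⟨K / c, fun u => ⟨?_, ?_⟩⟩
    · refine (abs_log_sub_log_le hc (hlow u) hc3).trans ?_
      rw [div_mul_eq_mul_div]
      gcongr
      refine le_trans (le_of_eq ?_) (hK u).1
      rw [show 1 - s u - 3 = -(s u + 2) by ring, abs_neg]
    · have hd : HasDerivAt (fun v => Real.log (1 - s v)) (-deriv s u / (1 - s u)) u := by
        have h1 : HasDerivAt s (deriv s u) u :=
          ((T.s_diff.differentiable (by norm_num)) u).hasDerivAt
        exact (h1.const_sub 1).log (by linarith [T.s_lt u])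
      rw [hd.deriv, abs_div, abs_neg, div_mul_eq_mul_div]
      have h2 := hlow u
      rw [abs_of_pos (lt_of_lt_of_le hc h2)]
      have h3 := (hK u).2
      have h4 := abs_nonneg (deriv s u)
      gcongr
      exact h4.trans h3
  · intro u; simp only [T.r_odd, neg_sq]
  · exact (contDiff_const.add (T.r_diff.pow 2)).log fun u => by positivity
  · obtain ⟨K, hK⟩ := T.r_lim
    have hK0 : 0 ≤ K := by
      have := (hK 0 le_rfl).1
      rw [neg_zero, Real.exp_zero, mul_one] at this
      exact (abs_nonneg _).trans this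
    have s3 : 0 ≤ Real.sqrt 3 := Real.sqrt_nonneg 3
    have s33 : Real.sqrt 3 ^ 2 = 3 := Real.sq_sqrt (by norm_num)
    refine ⟨K * (2 * Real.sqrt 3 + K) + K, fun u => ?_⟩
    have hpos : ∀ u, 0 ≤ u → |Real.log (1 + r u ^ 2) - Real.log 4| ≤
        (K * (2 * Real.sqrt 3 + K) + K) * Real.exp (-u) := by
      intro u hu
      refine (abs_log_sub_log_le one_pos (by nlinarith [sq_nonneg (r u)]) (by norm_num)).trans ?_
      rw [div_one, show 1 + r u ^ 2 - 4 = (r u - Real.sqrt 3) * (r u - Real.sqrt 3 + 2 * Real.sqrt 3)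
        by nlinarith, abs_mul]
      have h1 := (hK u hu).1
      have hexp : Real.exp (-u) ≤ 1 := Real.exp_le_one_iff.2 (by linarith)
      have hexp0 := Real.exp_pos (-u)
      have h2 : |r u - Real.sqrt 3| ≤ K := h1.trans (by nlinarith)
      have h3 : |r u - Real.sqrt 3 + 2 * Real.sqrt 3| ≤ K + 2 * Real.sqrt 3 := by
        refine (abs_add_le _ _).trans ?_
        rw [abs_of_nonneg (by positivity : 0 ≤ 2 * Real.sqrt 3)]
        linarith
      calc |r u - Real.sqrt 3| * |r u - Real.sqrt 3 + 2 * Real.sqrt 3|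
          ≤ (K * Real.exp (-u)) * (K + 2 * Real.sqrt 3) := by gcongr
        _ ≤ (K * (2 * Real.sqrt 3 + K) + K) * Real.exp (-u) := by
          have : 0 ≤ K * Real.exp (-u) := by positivity
          nlinarith
    have hdpos : ∀ u, |deriv r u| ≤ K * Real.exp (-|u|) := by
      intro u
      rcases le_total 0 u with h | h
      · rw [abs_of_nonneg h]; exact (hK u h).2
      · have := (hK (-u) (by linarith)).2
        rw [deriv_odd T.r_odd] at this
        rw [abs_of_nonpos h]; exact this
    refine ⟨?_, ?_⟩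
    · rcases le_total 0 u with h | h
      · rw [abs_of_nonneg h]; exact hpos u h
      · have := hpos (-u) (by linarith)
        rw [T.r_odd, neg_sq] at this
        rw [abs_of_nonpos h]; exact this
    · have hd : HasDerivAt (fun v => Real.log (1 + r v ^ 2))
          ((2 * r u * deriv r u) / (1 + r u ^ 2)) u := by
        have h1 : HasDerivAt r (deriv r u) u :=
          ((T.r_diff.differentiable (by norm_num)) u).hasDerivAt
        have h2 := ((h1.fun_pow 2).const_add 1).log (by positivity)
        refine h2.congr_deriv ?_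
        push_cast
        ring
      rw [hd.deriv, show 2 * r u * deriv r u / (1 + r u ^ 2) =
        (2 * r u / (1 + r u ^ 2)) * deriv r u by ring, abs_mul]
      have h3 : |2 * r u / (1 + r u ^ 2)| ≤ 1 := by
        rw [abs_div, abs_of_pos (by positivity : 0 < 1 + r u ^ 2), div_le_one (by positivity),
          abs_le]
        constructor <;> nlinarith [sq_nonneg (r u - 1), sq_nonneg (r u + 1)]
      have h4 := hdpos u
      have h5 := abs_nonneg (deriv r u)
      have h6 : 0 ≤ K * (2 * Real.sqrt 3 + K) := by positivity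
      calc |2 * r u / (1 + r u ^ 2)| * |deriv r u| ≤ 1 * (K * Real.exp (-|u|)) := by gcongr
        _ ≤ (K * (2 * Real.sqrt 3 + K) + K) * Real.exp (-|u|) := by
          have := Real.exp_pos (-|u|)
          nlinarith

end W96CL
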