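import Pool.Agent.W59.CL.PH
set_option autoImplicit false

open Polynomial Filter Topology MeasureTheory Set

namespace W59CL

open W96CL

theorem tendsto_of_exp {f : ℝ → ℝ} {c K : ℝ} (h : ∀ u, 0 ≤ u → |f u - c| ≤ K * Real.exp (-u)) :
    Tendsto f atTop (𝓝 c) := by
  rw [tendsto_iff_norm_sub_tendsto_zero]
  have h1 : Tendsto (fun u : ℝ => K * Real.exp (-u)) atTop (𝓝 0) := by
    have := (Real.tendsto_exp_neg_atTop_nhds_zero).const_mul K
    simpa using this
  refine squeeze_zero' (Eventually.of_forall fun u => norm_nonneg _) ?_ h1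
  filter_upwards [eventually_ge_atTop 0] with u hu
  rw [Real.norm_eq_abs]
  exact h u hu

theorem isBigO_exp {f : ℝ → ℝ} {K : ℝ} (h : ∀ u, 0 ≤ u → |f u| ≤ K * Real.exp (-u)) :
    f =O[atTop] fun u => Real.exp (-1 * u) := by
  refine Asymptotics.IsBigO.of_bound K ?_
  filter_upwards [eventually_ge_atTop 0] with u hu
  rw [Real.norm_eq_abs, Real.norm_of_nonneg (Real.exp_pos _).le, show -1 * u = -u by ring]
  exact h u hu

/-- substitution in an integral over the half line -/
theorem int_comp {w : ℝ → ℝ} (hw : ContDiff ℝ 1 w) (hgt : ∀ u, -1 < w u) {c K : ℝ} (hc : -1 < c)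
    (hlim : Tendsto w atTop (𝓝 c)) (hd : ∀ u, 0 ≤ u → |deriv w u| ≤ K * Real.exp (-u)) :
    IntegrableOn (fun u => gg (w u) * deriv w u) (Ioi 0) ∧
    ∫ u in Ioi (0 : ℝ), gg (w u) * deriv w u = Ph c - Ph (w 0) := by
  have hgc : Continuous fun u => gg (w u) :=
    gg_cont.comp_continuous hw.continuous hgt
  have hcont : Continuous fun u => gg (w u) * deriv w u :=
    hgc.mul (hw.continuous_deriv (by norm_num))
  have hglim : Tendsto (fun u => gg (w u)) atTop (𝓝 (gg c)) :=
    ((gg_cont.continuousAt (Ioi_mem_nhds hc)).tendsto).comp hlim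
  have hO : (fun u => gg (w u) * deriv w u) =O[atTop] fun u => Real.exp (-1 * u) := by
    have h1 := (hglim.isBigO_one ℝ).mul (isBigO_exp hd)
    simpa using h1
  have hint : IntegrableOn (fun u => gg (w u) * deriv w u) (Ioi 0) :=
    integrable_of_isBigO_exp_neg one_pos hcont.continuousOn hO
  refine ⟨hint, ?_⟩
  have hder : ∀ u ∈ Ici (0 : ℝ), HasDerivAt (fun u => Ph (w u)) (gg (w u) * deriv w u) u := by
    intro u _
    have h1 : HasDerivAt w (deriv w u) u := ((hw.differentiable (by norm_num)) u).hasDerivAt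
    exact (Ph_deriv (w u) (hgt u)).comp u h1
  exact integral_Ioi_of_hasDerivAt_of_tendsto' hder hint ((Ph_cont c hc).tendsto.comp hlim)

end W59CL

namespace W96CL

open W59CL

theorem cl_int1 : S_int1 := by
  intro n θ z0 s r lam T
  have hr0 : r 0 = 0 := by
    have := T.r_odd 0
    rw [neg_zero] at this
    linarith
  obtain ⟨K, hK⟩ := T.r_lim
  have hK0 : 0 ≤ K := by
    have := (hK 0 le_rfl).1
    rw [neg_zero, Real.exp_zero, mul_one] at this
    exact (abs_nonneg _).trans this
  have s3 : 0 ≤ Real.sqrt 3 := Real.sqrt_nonneg 3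
  have hrd : ∀ u, HasDerivAt r (deriv r u) u := fun u =>
    ((T.r_diff.differentiable (by norm_num)) u).hasDerivAt
  have hwd : ∀ u, deriv (fun u => r u ^ 2) u = 2 * r u * deriv r u := by
    intro u
    have := ((hrd u).fun_pow 2).deriv
    rw [this]; push_cast; ring
  have hlim : Tendsto (fun u => r u ^ 2) atTop (𝓝 3) := by
    have h1 := (tendsto_of_exp (fun u hu => (hK u hu).1)).pow 2
    rwa [Real.sq_sqrt (by norm_num)] at h1
  have hrb : ∀ u, 0 ≤ u → |r u| ≤ Real.sqrt 3 + K := by
    intro u hu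
    have h1 := (hK u hu).1
    have hexp : Real.exp (-u) ≤ 1 := Real.exp_le_one_iff.2 (by linarith)
    have h2 : |r u - Real.sqrt 3| ≤ K := h1.trans (by nlinarith)
    have h3 : r u = (r u - Real.sqrt 3) + Real.sqrt 3 := by ring
    rw [h3]
    refine (abs_add_le _ _).trans ?_
    rw [abs_of_nonneg s3]
    linarith
  obtain ⟨h1, h2⟩ := int_comp (w := fun u => r u ^ 2) (c := 3) (K := 2 * (Real.sqrt 3 + K) * K)
    (T.r_diff.pow 2) (fun u => by nlinarith [sq_nonneg (r u)]) (by norm_num) hlim (by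
      intro u hu
      rw [hwd, abs_mul, abs_mul, abs_of_pos (by norm_num : (0 : ℝ) < 2)]
      have h1 := hrb u hu
      have h2 := (hK u hu).2
      calc 2 * |r u| * |deriv r u| ≤ 2 * (Real.sqrt 3 + K) * (K * Real.exp (-u)) := by gcongr
        _ = 2 * (Real.sqrt 3 + K) * K * Real.exp (-u) := by ring)
  have heq : ∀ u ∈ Ioi (0 : ℝ), gg (r u ^ 2) * deriv (fun u => r u ^ 2) u =
      2 * (deriv r u / r u * Real.log (1 + r u ^ 2)) := by
    intro u hu
    have hr := T.r_pos u hu
    simp only [hwd]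
    rw [gg_ne (by positivity)]
    field_simp
  have h3 : IntegrableOn (fun u => 2 * (deriv r u / r u * Real.log (1 + r u ^ 2))) (Ioi 0) :=
    h1.congr_fun heq measurableSet_Ioi
  have h4 : IntegrableOn (fun u => deriv r u / r u * Real.log (1 + r u ^ 2)) (Ioi 0) := by
    have h5 : IntegrableOn (fun u => 1 / 2 * (2 * (deriv r u / r u * Real.log (1 + r u ^ 2))))
      (Ioi 0) := h3.const_mul (1 / 2)
    refine h5.congr_fun (fun u _ => ?_) measurableSet_Ioi
    ring
  refine ⟨h4, ?_⟩
  rw [setIntegral_congr_fun measurableSet_Ioi heq, integral_const_mul] at h2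
  simp only [hr0] at h2
  rw [show (0 : ℝ) ^ 2 = 0 by norm_num, Ph_zero] at h2
  linarith

theorem cl_int2 : S_int2 := by
  intro n θ z0 s r lam T
  obtain ⟨K, hK⟩ := T.s_lim
  have hsd : ∀ u, HasDerivAt s (deriv s u) u := fun u =>
    ((T.s_diff.differentiable (by norm_num)) u).hasDerivAt
  have hwd : ∀ u, deriv (fun u => -s u) u = -deriv s u := fun u => (hsd u).fun_neg.deriv
  have hlim : Tendsto (fun u => -s u) atTop (𝓝 2) := by
    have h1 : Tendsto s atTop (𝓝 (-2)) := tendsto_of_exp (K := K) (fun u hu => by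
      have := (hK u).1
      rw [abs_of_nonneg hu] at this
      rwa [sub_neg_eq_add])
    have h2 := h1.neg
    rwa [neg_neg] at h2
  obtain ⟨h1, h2⟩ := int_comp (w := fun u => -s u) (c := 2) (K := K)
    T.s_diff.neg (fun u => by linarith [T.s_lt u]) (by norm_num) hlim (by
      intro u hu
      rw [hwd, abs_neg]
      have := (hK u).2
      rwa [abs_of_nonneg hu] at this)
  have hae : ∀ᵐ u : ℝ, u ≠ z0 :=
    (measure_eq_zero_iff_ae_notMem.1 (measure_singleton z0)).mono (fun t ht => by simpa using ht)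
  have heq : ∀ᵐ u ∂(volume.restrict (Ioi (0 : ℝ))), gg (-s u) * deriv (fun u => -s u) u =
      deriv s u / s u * Real.log (1 - s u) := by
    filter_upwards [ae_restrict_of_ae hae, ae_restrict_mem measurableSet_Ioi] with u hu hu0
    have hs : s u ≠ 0 := by
      rcases lt_or_gt_of_ne hu with h | h
      · exact (T.s_pos u (by rw [abs_of_pos hu0]; exact h)).ne'
      · exact (T.s_neg u (by rw [abs_of_pos hu0]; exact h)).ne
    rw [hwd, gg_ne (neg_ne_zero.2 hs), ← sub_eq_add_neg]
    field_simp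
  refine ⟨(integrable_congr heq).1 h1, ?_⟩
  rw [← integral_congr_ae heq, h2]

end W96CL
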