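import Pool.Agent.W96.CL.Stm
set_option autoImplicit false

open Polynomial Filter Topology MeasureTheory Set

namespace W59CL

open W96CL

/-- `log (1+t) / t`, continuously extended -/
noncomputable def gg (t : ℝ) : ℝ := dslope (fun t : ℝ => Real.log (1 + t)) 0 t

theorem gg_ne {t : ℝ} (ht : t ≠ 0) : gg t = Real.log (1 + t) / t := by
  unfold gg
  rw [dslope_of_ne _ ht, slope_def_field]
  simp

theorem gg_zero : gg 0 = 1 := by
  unfold gg
  rw [dslope_same]
  have : HasDerivAt (fun t : ℝ => Real.log (1 + t)) (1 / (1 + 0)) 0 :=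
    ((hasDerivAt_id (0 : ℝ)).const_add 1).log (by norm_num)
  rw [this.deriv]
  norm_num

theorem gg_cont : ContinuousOn gg (Ioi (-1)) := by
  unfold gg
  refine (continuousOn_dslope (Ioi_mem_nhds (by norm_num))).2 ⟨?_, ?_⟩
  · intro t ht
    refine ContinuousAt.continuousWithinAt ?_
    refine ContinuousAt.log (by fun_prop) ?_
    have : (-1 : ℝ) < t := ht
    linarith
  · refine DifferentiableAt.log (by fun_prop) (by norm_num)

theorem Ph_eq (r : ℝ) : Ph r = ∫ t in (0 : ℝ)..r, gg t := by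
  unfold Ph
  refine intervalIntegral.integral_congr_ae ?_
  have hne : ∀ᵐ t : ℝ, t ≠ 0 :=
    (measure_eq_zero_iff_ae_notMem.1 (measure_singleton (0 : ℝ))).mono (fun t ht => by simpa using ht)
  filter_upwards [hne] with t ht _
  exact (gg_ne ht).symm

theorem Ph_zero : Ph 0 = 0 := by
  unfold Ph; simp

theorem Ph_deriv (r : ℝ) (h0 : -1 < r) : HasDerivAt Ph (gg r) r := by
  have e : Ph = fun r => ∫ t in (0 : ℝ)..r, gg t := by
    funext r
    exact Ph_eq r
  rw [e]
  have hnh : Ioi (-1 : ℝ) ∈ 𝓝 r := Ioi_mem_nhds h0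
  refine intervalIntegral.integral_hasDerivAt_right ?_ ?_ ?_
  · refine (gg_cont.mono ?_).intervalIntegrable
    intro x hx
    have hx' : min 0 r ≤ x := hx.1
    have : (-1 : ℝ) < min 0 r := lt_min (by norm_num) h0
    exact lt_of_lt_of_le this hx'
  · exact gg_cont.stronglyMeasurableAtFilter isOpen_Ioi r h0
  · exact gg_cont.continuousAt hnh

theorem Ph_cont (r : ℝ) (h0 : -1 < r) : ContinuousAt Ph r := (Ph_deriv r h0).continuousAt

theorem Ph_comp {w : ℝ → ℝ} {w' y : ℝ} (hw : HasDerivAt w w' y) (h : -1 < w y) :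
    HasDerivAt (fun x => Ph (w x)) (gg (w y) * w') y := (Ph_deriv (w y) h).comp y hw

end W59CL
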